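import Pool.Agent.P.MP_b4265e_pr.R.ZOne
import Pool.Agent.P.MP_b4265e_pr.R.GShell

/-!
Q1 as worded, for every `d > 2` and every `p > p_c`: it holds exactly when `p = 1`.
-/

namespace Pool.Agent.Results.MP_b4265e_pr.Dichotomy

open MeasureTheory ProbabilityTheory Filter Pool.Agent.P.MP_b4265e_pr Pool.Agent.P.MP_b4265e_pr.R
open scoped ENNReal

/-- The nearest-neighbour graph on the integer lattice. -/
def lattice (d : ℕ) : SimpleGraph (Fin d → ℤ) where
  Adj x y := ∑ i, |x i - y i| = 1
  symm := ⟨fun x y h => by simpa only [abs_sub_comm] using h⟩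
  loopless := ⟨fun x h => by simp at h⟩

/-- Bernoulli bond percolation: the law of the set of open edges, each edge of the lattice being
open independently with probability `p`. -/
noncomputable def perc (d : ℕ) (p : unitInterval) : Measure (Set (Sym2 (Fin d → ℤ))) :=
  setBernoulli (lattice d).edgeSet p

/-- The graph of open lattice edges. -/
def openGraph {d : ℕ} (ω : Set (Sym2 (Fin d → ℤ))) : SimpleGraph (Fin d → ℤ) :=
  lattice d ⊓ SimpleGraph.fromEdgeSet ω

/-- The critical probability: the supremum of the `p` for which the open cluster of the origin is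
infinite with probability zero. -/
noncomputable def pc (d : ℕ) : unitInterval :=
  sSup {p | perc d p {ω | {y | (openGraph ω).Reachable 0 y}.Infinite} = 0}

variable {d : ℕ}

lemma lattice_adj {x y : V d} :
    (lattice d).Adj x y ↔ ∃ i, y = x + ee i ∨ x = y + ee i := by
  classical
  have key : ∀ (x : V d) (i : Fin d), ∑ j, |x j - (x + ee i) j| = 1 := by
    intro x i
    rw [Finset.sum_eq_single i]
    · simp
    · intro j _ hj; simp [ee_ne hj]
    · simp
  constructor
  · intro h
    change ∑ i, |x i - y i| = 1 at h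
    obtain ⟨i, hi⟩ : ∃ i, x i ≠ y i := by
      by_contra hcon
      push Not at hcon
      simp [hcon] at h
    rw [← Finset.add_sum_erase _ _ (Finset.mem_univ i)] at h
    have h1 : 0 ≤ ∑ j ∈ Finset.univ.erase i, |x j - y j| :=
      Finset.sum_nonneg fun j _ => abs_nonneg _
    have h2 : 0 < |x i - y i| := abs_pos.2 (sub_ne_zero.2 hi)
    have h3 : ∑ j ∈ Finset.univ.erase i, |x j - y j| = 0 := by omega
    have h4 : |x i - y i| = 1 := by omega
    have h5 : ∀ j, j ≠ i → x j = y j := by
      intro j hj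
      have := (Finset.sum_eq_zero_iff_of_nonneg fun j _ => abs_nonneg _).1 h3 j (by simp [hj])
      exact sub_eq_zero.1 (abs_eq_zero.1 this)
    refine ⟨i, ?_⟩
    rcases (abs_eq (by norm_num)).1 h4 with h6 | h6
    · right; funext j
      by_cases hj : j = i
      · subst hj; simp; omega
      · simp [ee_ne hj, h5 j hj]
    · left; funext j
      by_cases hj : j = i
      · subst hj; simp; omega
      · simp [ee_ne hj, h5 j hj]
  · rintro ⟨i, rfl | rfl⟩
    · exact key x i
    · exact (lattice d).adj_symm (key y i)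

/-- The edge variables. -/
def XX (a : E d) (ω : Set (Sym2 (V d))) : Prop := s(a.1, a.1 + ee a.2) ∈ ω

lemma open_adj {ω : Set (Sym2 (V d))} {x y : V d} :
    (openGraph ω).Adj x y ↔ adj (opn XX ω) x y := by
  simp only [openGraph, SimpleGraph.inf_adj, SimpleGraph.fromEdgeSet_adj]
  constructor
  · rintro ⟨h1, h2, _⟩
    obtain ⟨i, rfl | rfl⟩ := lattice_adj.1 h1
    · exact ⟨i, Or.inl ⟨rfl, h2⟩⟩
    · exact ⟨i, Or.inr ⟨rfl, by rw [Sym2.eq_swap] at h2; exact h2⟩⟩
  · rintro ⟨i, ⟨rfl, h⟩ | ⟨rfl, h⟩⟩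
    · have := lattice_adj.2 ⟨i, Or.inl (rfl : x + ee i = x + ee i)⟩
      exact ⟨this, h, this.ne⟩
    · have := lattice_adj.2 ⟨i, Or.inr (rfl : y + ee i = y + ee i)⟩
      exact ⟨this, by rw [Sym2.eq_swap]; exact h, this.ne⟩

lemma open_reach {ω : Set (Sym2 (V d))} {x y : V d} :
    (openGraph ω).Reachable x y ↔ y ∈ comp (opn XX ω) x := by
  rw [SimpleGraph.reachable_iff_reflTransGen]
  have : (openGraph ω).Adj = adj (opn XX ω) := by
    funext a b; exact propext open_adj
  rw [this]; rfl

lemma supp_mk {ω : Set (Sym2 (V d))} (x : V d) :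
    ((openGraph ω).connectedComponentMk x).supp = comp (opn XX ω) x := by
  ext y
  rw [SimpleGraph.ConnectedComponent.mem_supp_iff, SimpleGraph.ConnectedComponent.eq,
    SimpleGraph.reachable_comm, open_reach]

lemma toEdge_inj : Function.Injective fun a : E d => s(a.1, a.1 + ee a.2) := by
  rintro ⟨x, i⟩ ⟨y, j⟩ h
  simp only [Sym2.eq_iff] at h
  rcases h with ⟨rfl, h⟩ | ⟨h1, h2⟩
  · rw [ee_inj (add_left_cancel h)]
  · have e1 := congrFun h1 i
    have e2 := congrFun h2 i
    have := ee_bounds j i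
    simp only [Pi.add_apply, ee_self] at e1 e2
    omega

lemma bern (p : unitInterval) : Bern (perc d p) XX p := by
  have hP : ∀ e : Sym2 (V d), IsProbabilityMeasure
      (unitInterval.toNNReal p • Measure.dirac (e ∈ (lattice d).edgeSet) +
        unitInterval.toNNReal (unitInterval.symm p) • Measure.dirac False) := inferInstance
  refine ⟨fun a => by unfold XX; fun_prop, ?_, fun a => ?_⟩
  · have h0 : iIndepFun (fun (e : Sym2 (V d)) (ω : Set (Sym2 (V d))) => e ∈ ω) (perc d p) := by
      have h1 := iIndepFun_infinitePi (P := fun e : Sym2 (V d) =>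
        unitInterval.toNNReal p • Measure.dirac (e ∈ (lattice d).edgeSet) +
          unitInterval.toNNReal (unitInterval.symm p) • Measure.dirac False)
        (X := fun _ P => P) (fun _ => measurable_id)
      rw [iIndepFun_iff_measure_inter_preimage_eq_mul] at h1 ⊢
      intro S sets H
      simp only [perc, setBernoulli_apply', Set.preimage_iInter]
      exact h1 S H
    exact h0.precomp (g := fun a : E d => s(a.1, a.1 + ee a.2)) toEdge_inj
  · have he : s(a.1, a.1 + ee a.2) ∈ (lattice d).edgeSet := lattice_adj.2 ⟨a.2, Or.inl rfl⟩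
    have : perc d p {ω | XX a ω} = unitInterval.toNNReal p := by
      calc perc d p {ω | XX a ω} = Measure.infinitePi (fun e : Sym2 (V d) =>
            unitInterval.toNNReal p • Measure.dirac (e ∈ (lattice d).edgeSet) +
              unitInterval.toNNReal (unitInterval.symm p) • Measure.dirac False)
            (cylinder {s(a.1, a.1 + ee a.2)} {fun _ => True}) := by
            rw [perc, setBernoulli_apply']; congr!; ext; simp [funext_iff, XX]
        _ = _ := by simp [Measure.infinitePi_cylinder, he]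
    rw [measureReal_def, this]; rfl

lemma norm_le_iff {x : V d} {N : ℕ} : ‖x‖ ≤ N ↔ x ∈ box (0 : V d) N := by
  rw [pi_norm_le_iff_of_nonneg (by positivity), mem_box]
  refine forall_congr' fun k => ?_
  simp only [Int.norm_eq_abs, Pi.zero_apply, sub_zero]
  exact_mod_cast Iff.rfl

lemma ball_eq (N : ℕ) : {x : V d | ‖x‖ ≤ N} = (box (0 : V d) N : Set (V d)) := by
  ext x; simp [norm_le_iff]

lemma theta_pos {p : unitInterval} (hp : pc d < p) :
    ∃ p0 : unitInterval, p0 < p ∧ 0 < (μP d p0).real {O | (0 : V d) ∈ Cl O} := by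
  obtain ⟨p0, h1, h2⟩ := exists_between hp
  refine ⟨p0, h2, ?_⟩
  have hprob : IsProbabilityMeasure (perc d p0) := by unfold perc; infer_instance
  have h3 : perc d p0 {ω | {y | (openGraph ω).Reachable 0 y}.Infinite} ≠ 0 := fun h =>
    absurd (le_sSup (s := {p | perc d p {ω | {y | (openGraph ω).Reachable 0 y}.Infinite} = 0}) h)
      (not_le.2 h1)
  have h4 := (measurePreserving_opn (bern (d := d) p0)).measure_preimage
    (measurableSet_Cl (0 : V d)).nullMeasurableSet
  have e : opn XX ⁻¹' {O | (0 : V d) ∈ Cl O} =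
      {ω | {y | (openGraph ω).Reachable 0 y}.Infinite} := by
    ext ω; simp only [Set.mem_ofPred_eq, open_reach]; rfl
  rw [e] at h4
  rw [measureReal_def, ← h4]
  exact ENNReal.toReal_pos h3 (measure_ne_top _ _)

lemma lap_eq (ω : Set (Sym2 (V d))) (u : V d → ℝ) (y : V d) :
    ∑ᶠ z ∈ (openGraph ω).neighborSet y, (u z - u y) = lap (nbO (opn XX ω)) u y := by
  have : (openGraph ω).neighborSet y = (nbO (opn XX ω) y : Set (V d)) := by
    ext z; simp [mem_nbO, open_adj]
  rw [this, finsum_mem_coe_finset]; rfl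

lemma div_eq (a N : ℕ) : (a : ℝ≥0∞) / ({x : V d | ‖x‖ ≤ N}.ncard : ℝ≥0∞) =
    ENNReal.ofReal (a / vol d N) := by
  rw [ball_eq, Set.ncard_coe_finset, ENNReal.ofReal_div_of_pos (vol_pos d N),
    ← card_box_vol (0 : V d) N, ENNReal.ofReal_natCast, ENNReal.ofReal_natCast]

theorem result (d : ℕ) (hd : 2 < d) (p : unitInterval) (hp : pc d < p) :
    ∀ᵐ ω ∂perc d p, ∃ C : (openGraph ω).ConnectedComponent, C.supp.Infinite ∧
      (∀ C' : (openGraph ω).ConnectedComponent, C'.supp.Infinite → C' = C) ∧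
      ((∀ u : (Fin d → ℤ) → ℝ,
        {x ∈ C.supp | ∑ᶠ y ∈ (openGraph ω).neighborSet x, (u y - u x) ≠ 0}.Finite →
        (∀ ε : ℝ, 0 < ε → ∃ R : ℝ, ∀ x ∈ C.supp, R ≤ ‖x‖ → |u x| < ε) →
        0 < liminf (fun N : ℕ =>
          ({e ∈ (openGraph ω).edgeSet |
              ∀ x ∈ e, x ∈ C.supp ∧ ‖x‖ ≤ N ∧ ∀ y ∈ e, u y - u x = 0}.ncard : ℝ≥0∞) /
            ({x : Fin d → ℤ | ‖x‖ ≤ N}.ncard : ℝ≥0∞)) atTop →
        {x ∈ C.supp | u x ≠ 0}.Finite) ↔ p = 1) := by
  classical
  obtain ⟨p0, h1, h2⟩ := theta_pos hp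
  obtain ⟨c, hc, hPI⟩ := PIprob_of_RH (by omega) (RH_of_theta hd h1 h2)
  have hp0 : 0 < (p : ℝ) := lt_of_le_of_lt p0.2.1 h1
  have hprob : IsProbabilityMeasure (perc d p) := by unfold perc; infer_instance
  have hq := (measurePreserving_opn (bern (d := d) p)).quasiMeasurePreserving
  have huniq : ∀ (ω : Set (Sym2 (V d))) (o : V d), o ∈ Cl (opn XX ω) →
      (∀ y ∈ Cl (opn XX ω), ∀ z ∈ Cl (opn XX ω), z ∈ comp (opn XX ω) y) →
      ((openGraph ω).connectedComponentMk o).supp = Cl (opn XX ω) ∧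
      ((openGraph ω).connectedComponentMk o).supp.Infinite ∧
      ∀ C' : (openGraph ω).ConnectedComponent, C'.supp.Infinite →
        C' = (openGraph ω).connectedComponentMk o := by
    intro ω o ho huq
    refine ⟨?_, by rw [supp_mk]; exact ho, fun C' hC' => ?_⟩
    · rw [supp_mk]
      exact Set.ext fun y => ⟨fun hy => mem_Cl_of_comp ho hy, fun hy => huq o ho y hy⟩
    · induction C' using SimpleGraph.ConnectedComponent.ind with
      | _ y =>
        rw [supp_mk] at hC'
        exact SimpleGraph.ConnectedComponent.sound (open_reach.2 (huq y hC' o ho))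
  rcases lt_or_eq_of_le p.2.2 with hp1 | hp1
  · filter_upwards [hq.ae (green_main hd hp0 hp1 hc hPI)] with ω hω
    obtain ⟨o, ho, huq, g, g1, g2, g3, ε, hε, hev⟩ := hω
    obtain ⟨hsupp, hinf, hun⟩ := huniq ω o ho huq
    refine ⟨_, hinf, hun, iff_of_false (fun H => ?_) fun h => by rw [h] at hp1; simp at hp1⟩
    rw [hsupp] at H hinf
    set O := opn XX ω with hO
    refine hinf ((H g ?_ ?_ ?_).subset fun x hx => ⟨hx, (g2 x hx).ne'⟩)
    · refine (Set.finite_singleton o).subset fun x hx => ?_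
      by_contra hxo
      exact hx.2 (by rw [lap_eq]; exact g1 x hx.1 hxo)
    · intro η hη
      obtain ⟨R, hR⟩ := exists_box (g3 η hη)
      refine ⟨R + 1, fun x _ hx => ?_⟩
      by_contra hcon
      have := norm_le_iff.2 (hR (not_lt.1 hcon))
      linarith
    · refine (ENNReal.ofReal_pos.2 hε).trans_le (le_liminf_of_le (by isBoundedDefault) ?_)
      filter_upwards [hev] with N hN
      set S := {e ∈ (openGraph ω).edgeSet |
        ∀ x ∈ e, x ∈ Cl O ∧ ‖x‖ ≤ N ∧ ∀ y ∈ e, g y - g x = 0} with hS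
      have hSfin : S.Finite := by
        refine (Finset.finite_toSet (box (0 : V d) N).sym2).subset fun e he => ?_
        exact Finset.mem_coe.2 (Finset.mem_sym2_iff.2 fun x hx => norm_le_iff.1 (he.2 x hx).2.1)
      have hTS : ((boxE (0 : V d) N).filter fun e =>
          e ∈ GC O ∧ e.1 + ee e.2 ∈ box (0 : V d) N ∧ grad g e = 0).card ≤ S.ncard := by
        rw [← Set.ncard_coe_finset]
        refine Set.ncard_le_ncard_of_injOn (fun a => s(a.1, a.1 + ee a.2)) ?_ toEdge_inj.injOn hSfin
        intro a ha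
        obtain ⟨hb, a1, a2, a3⟩ := Finset.mem_filter.1 (Finset.mem_coe.1 ha)
        have hadj : adj O a.1 (a.1 + ee a.2) := ⟨a.2, Or.inl ⟨rfl, a1.1⟩⟩
        have hval : ∀ z ∈ s(a.1, a.1 + ee a.2), g z = g a.1 := by
          intro z hz
          rcases Sym2.mem_iff.1 hz with rfl | rfl
          · rfl
          · exact sub_eq_zero.1 a3
        refine ⟨open_adj.2 hadj, fun z hz => ⟨?_, ?_, fun y hy => by
          rw [hval y hy, hval z hz, sub_self]⟩⟩
        · rcases Sym2.mem_iff.1 hz with rfl | rfl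
          · exact a1.2
          · exact mem_Cl_of_comp a1.2 (comp_adj (mem_comp_self _ _) hadj)
        · rcases Sym2.mem_iff.1 hz with rfl | rfl
          · exact norm_le_iff.2 (mem_boxE'.1 hb)
          · exact norm_le_iff.2 a2
      rw [div_eq]
      refine ENNReal.ofReal_le_ofReal ?_
      rw [le_div_iff₀ (vol_pos d N)]
      exact hN.trans (by exact_mod_cast hTS)
  · obtain rfl : p = 1 := Subtype.ext hp1
    filter_upwards [hq.ae ae_eq_univ, hq.ae (ae_exists_unique (by omega) hc hPI)] with ω hO hω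
    obtain ⟨⟨o, ho⟩, huq⟩ := hω
    obtain ⟨hsupp, hinf, hun⟩ := huniq ω o ho huq
    refine ⟨_, hinf, hun, iff_of_true (fun u hu1 hu2 hu3 => ?_) rfl⟩
    rw [hsupp, hO, Cl_univ (by omega)] at hu1 hu2 hu3 ⊢
    by_contra hinf
    obtain ⟨R0, hR0⟩ := exists_box hu1
    have hH : HarmOff Set.univ R0 u := by
      intro y hy
      by_contra hne
      refine hy (hR0 ⟨trivial, ?_⟩)
      rwa [lap_eq, hO, ← lapG_eq_lap]
    have hD : Dec Set.univ u := by
      intro ε hε
      obtain ⟨R, hR⟩ := hu2 ε hε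
      refine ⟨⌈R⌉₊, fun y hy hy' => (hR y hy ?_).le⟩
      exact (Nat.le_ceil R).trans (not_le.1 fun h => hy' (norm_le_iff.1 h)).le
    refine absurd hu3 (not_lt.2 (ENNReal.le_of_forall_pos_le_add fun ε hε _ => ?_))
    rw [zero_add]
    refine liminf_le_of_frequently_le (Eventually.frequently ?_)
    filter_upwards [flat_one hd hc hPI hH hD
      (fun h => hinf (h.subset fun x hx => hx.2)) (ε := ε) hε] with N hN
    rw [div_eq, ← ENNReal.ofReal_coe_nnreal]
    refine ENNReal.ofReal_le_ofReal ?_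
    rw [div_le_iff₀ (vol_pos d N)]
    refine le_trans ?_ hN
    rw [Nat.cast_le, ← Set.ncard_coe_finset,
      ← Set.ncard_image_of_injective _ toEdge_inj]
    refine Set.ncard_le_ncard ?_ ((Finset.finite_toSet _).image _)
    intro e he
    induction e using Sym2.ind with
    | _ x y =>
      obtain ⟨h1, h2⟩ := he
      have h3 : adj (opn XX ω) x y := open_adj.1 ((SimpleGraph.mem_edgeSet _).1 h1)
      obtain ⟨i, ⟨rfl, -⟩ | ⟨rfl, -⟩⟩ := h3
      · exact ⟨(x, i), Finset.mem_coe.2 (Finset.mem_filter.2 ⟨mem_boxE'.2 (norm_le_iff.1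
          (h2 x (by simp)).2.1), (h2 x (by simp)).2.2 _ (by simp)⟩), rfl⟩
      · exact ⟨(y, i), Finset.mem_coe.2 (Finset.mem_filter.2 ⟨mem_boxE'.2 (norm_le_iff.1
          (h2 y (by simp)).2.1), (h2 y (by simp)).2.2 _ (by simp)⟩), Sym2.eq_swap⟩

end Pool.Agent.Results.MP_b4265e_pr.Dichotomy
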