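import Pool.Agent.P.MP_b4265e_pr.R.Main
import Pool.Agent.P.MP_b4265e_pr.R.GShell

/-!
Unique continuation on the supercritical cluster, for every `d > 2` and every `p > p_c`: a decaying
function that is harmonic off a finite set is finitely supported unless the edges with nonzero
gradient have positive density.
-/

namespace Pool.Agent.Results.MP_b4265e_pr.PositiveDensity

open MeasureTheory ProbabilityTheory Filter Pool.Agent.P.MP_b4265e_pr Pool.Agent.P.MP_b4265e_pr.R
open scoped ENNReal

/-- The nearest-neighbour graph on the integer lattice. -/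
def lattice (d : ℕ) : SimpleGraph (Fin d → ℤ) where
  Adj x y := ∑ i, |x i - y i| = 1
  symm := ⟨fun x y h => by simpa only [abs_sub_comm] using h⟩
  loopless := ⟨fun x h => by simp at h⟩

/-- Bernoulli bond percolation: the law of the set of open edges, each edge of the lattice being
open independently with probability `p`. -/
noncomputable def perc (d : ℕ) (p : unitInterval) : Measure (Set (Sym2 (Fin d → ℤ))) :=
  setBernoulli (lattice d).edgeSet p

/-- The graph of open lattice edges. -/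
def openGraph {d : ℕ} (ω : Set (Sym2 (Fin d → ℤ))) : SimpleGraph (Fin d → ℤ) :=
  lattice d ⊓ SimpleGraph.fromEdgeSet ω

/-- The critical probability: the supremum of the `p` for which the open cluster of the origin is
infinite with probability zero. -/
noncomputable def pc (d : ℕ) : unitInterval :=
  sSup {p | perc d p {ω | {y | (openGraph ω).Reachable 0 y}.Infinite} = 0}

variable {d : ℕ}

lemma lattice_adj {x y : V d} :
    (lattice d).Adj x y ↔ ∃ i, y = x + ee i ∨ x = y + ee i := by
  classical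
  have key : ∀ (x : V d) (i : Fin d), ∑ j, |x j - (x + ee i) j| = 1 := by
    intro x i
    rw [Finset.sum_eq_single i]
    · simp
    · intro j _ hj; simp [ee_ne hj]
    · simp
  constructor
  · intro h
    change ∑ i, |x i - y i| = 1 at h
    obtain ⟨i, hi⟩ : ∃ i, x i ≠ y i := by
      by_contra hcon
      push Not at hcon
      simp [hcon] at h
    rw [← Finset.add_sum_erase _ _ (Finset.mem_univ i)] at h
    have h1 : 0 ≤ ∑ j ∈ Finset.univ.erase i, |x j - y j| :=
      Finset.sum_nonneg fun j _ => abs_nonneg _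
    have h2 : 0 < |x i - y i| := abs_pos.2 (sub_ne_zero.2 hi)
    have h3 : ∑ j ∈ Finset.univ.erase i, |x j - y j| = 0 := by omega
    have h4 : |x i - y i| = 1 := by omega
    have h5 : ∀ j, j ≠ i → x j = y j := by
      intro j hj
      have := (Finset.sum_eq_zero_iff_of_nonneg fun j _ => abs_nonneg _).1 h3 j (by simp [hj])
      exact sub_eq_zero.1 (abs_eq_zero.1 this)
    refine ⟨i, ?_⟩
    rcases (abs_eq (by norm_num)).1 h4 with h6 | h6
    · right; funext j
      by_cases hj : j = i
      · subst hj; simp; omega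
      · simp [ee_ne hj, h5 j hj]
    · left; funext j
      by_cases hj : j = i
      · subst hj; simp; omega
      · simp [ee_ne hj, h5 j hj]
  · rintro ⟨i, rfl | rfl⟩
    · exact key x i
    · exact (lattice d).adj_symm (key y i)

/-- The edge variables. -/
def XX (a : E d) (ω : Set (Sym2 (V d))) : Prop := s(a.1, a.1 + ee a.2) ∈ ω

lemma open_adj {ω : Set (Sym2 (V d))} {x y : V d} :
    (openGraph ω).Adj x y ↔ adj (opn XX ω) x y := by
  simp only [openGraph, SimpleGraph.inf_adj, SimpleGraph.fromEdgeSet_adj]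
  constructor
  · rintro ⟨h1, h2, _⟩
    obtain ⟨i, rfl | rfl⟩ := lattice_adj.1 h1
    · exact ⟨i, Or.inl ⟨rfl, h2⟩⟩
    · exact ⟨i, Or.inr ⟨rfl, by rw [Sym2.eq_swap] at h2; exact h2⟩⟩
  · rintro ⟨i, ⟨rfl, h⟩ | ⟨rfl, h⟩⟩
    · have := lattice_adj.2 ⟨i, Or.inl (rfl : x + ee i = x + ee i)⟩
      exact ⟨this, h, this.ne⟩
    · have := lattice_adj.2 ⟨i, Or.inr (rfl : y + ee i = y + ee i)⟩
      exact ⟨this, by rw [Sym2.eq_swap]; exact h, this.ne⟩

lemma open_reach {ω : Set (Sym2 (V d))} {x y : V d} :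
    (openGraph ω).Reachable x y ↔ y ∈ comp (opn XX ω) x := by
  rw [SimpleGraph.reachable_iff_reflTransGen]
  have : (openGraph ω).Adj = adj (opn XX ω) := by
    funext a b; exact propext open_adj
  rw [this]; rfl

lemma supp_mk {ω : Set (Sym2 (V d))} (x : V d) :
    ((openGraph ω).connectedComponentMk x).supp = comp (opn XX ω) x := by
  ext y
  rw [SimpleGraph.ConnectedComponent.mem_supp_iff, SimpleGraph.ConnectedComponent.eq,
    SimpleGraph.reachable_comm, open_reach]

lemma toEdge_inj : Function.Injective fun a : E d => s(a.1, a.1 + ee a.2) := by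
  rintro ⟨x, i⟩ ⟨y, j⟩ h
  simp only [Sym2.eq_iff] at h
  rcases h with ⟨rfl, h⟩ | ⟨h1, h2⟩
  · rw [ee_inj (add_left_cancel h)]
  · have e1 := congrFun h1 i
    have e2 := congrFun h2 i
    have := ee_bounds j i
    simp only [Pi.add_apply, ee_self] at e1 e2
    omega

lemma bern (p : unitInterval) : Bern (perc d p) XX p := by
  have hP : ∀ e : Sym2 (V d), IsProbabilityMeasure
      (unitInterval.toNNReal p • Measure.dirac (e ∈ (lattice d).edgeSet) +
        unitInterval.toNNReal (unitInterval.symm p) • Measure.dirac False) := inferInstance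
  refine ⟨fun a => by unfold XX; fun_prop, ?_, fun a => ?_⟩
  · have h0 : iIndepFun (fun (e : Sym2 (V d)) (ω : Set (Sym2 (V d))) => e ∈ ω) (perc d p) := by
      have h1 := iIndepFun_infinitePi (P := fun e : Sym2 (V d) =>
        unitInterval.toNNReal p • Measure.dirac (e ∈ (lattice d).edgeSet) +
          unitInterval.toNNReal (unitInterval.symm p) • Measure.dirac False)
        (X := fun _ P => P) (fun _ => measurable_id)
      rw [iIndepFun_iff_measure_inter_preimage_eq_mul] at h1 ⊢
      intro S sets H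
      simp only [perc, setBernoulli_apply', Set.preimage_iInter]
      exact h1 S H
    exact h0.precomp (g := fun a : E d => s(a.1, a.1 + ee a.2)) toEdge_inj
  · have he : s(a.1, a.1 + ee a.2) ∈ (lattice d).edgeSet := lattice_adj.2 ⟨a.2, Or.inl rfl⟩
    have : perc d p {ω | XX a ω} = unitInterval.toNNReal p := by
      calc perc d p {ω | XX a ω} = Measure.infinitePi (fun e : Sym2 (V d) =>
            unitInterval.toNNReal p • Measure.dirac (e ∈ (lattice d).edgeSet) +
              unitInterval.toNNReal (unitInterval.symm p) • Measure.dirac False)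
            (cylinder {s(a.1, a.1 + ee a.2)} {fun _ => True}) := by
            rw [perc, setBernoulli_apply']; congr!; ext; simp [funext_iff, XX]
        _ = _ := by simp [Measure.infinitePi_cylinder, he]
    rw [measureReal_def, this]; rfl

lemma norm_le_iff {x : V d} {N : ℕ} : ‖x‖ ≤ N ↔ x ∈ box (0 : V d) N := by
  rw [pi_norm_le_iff_of_nonneg (by positivity), mem_box]
  refine forall_congr' fun k => ?_
  simp only [Int.norm_eq_abs, Pi.zero_apply, sub_zero]
  exact_mod_cast Iff.rfl

lemma ball_eq (N : ℕ) : {x : V d | ‖x‖ ≤ N} = (box (0 : V d) N : Set (V d)) := by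
  ext x; simp [norm_le_iff]

lemma theta_pos {p : unitInterval} (hp : pc d < p) :
    ∃ p0 : unitInterval, p0 < p ∧ 0 < (μP d p0).real {O | (0 : V d) ∈ Cl O} := by
  obtain ⟨p0, h1, h2⟩ := exists_between hp
  refine ⟨p0, h2, ?_⟩
  have hprob : IsProbabilityMeasure (perc d p0) := by unfold perc; infer_instance
  have h3 : perc d p0 {ω | {y | (openGraph ω).Reachable 0 y}.Infinite} ≠ 0 := fun h =>
    absurd (le_sSup (s := {p | perc d p {ω | {y | (openGraph ω).Reachable 0 y}.Infinite} = 0}) h)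
      (not_le.2 h1)
  have h4 := (measurePreserving_opn (bern (d := d) p0)).measure_preimage
    (measurableSet_Cl (0 : V d)).nullMeasurableSet
  have e : opn XX ⁻¹' {O | (0 : V d) ∈ Cl O} =
      {ω | {y | (openGraph ω).Reachable 0 y}.Infinite} := by
    ext ω; simp only [Set.mem_ofPred_eq, open_reach]; rfl
  rw [e] at h4
  rw [measureReal_def, ← h4]
  exact ENNReal.toReal_pos h3 (measure_ne_top _ _)

theorem result (d : ℕ) (hd : 2 < d) (p : unitInterval) (hp : pc d < p) :
    ∀ᵐ ω ∂perc d p, ∃ C : (openGraph ω).ConnectedComponent, C.supp.Infinite ∧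
      (∀ C' : (openGraph ω).ConnectedComponent, C'.supp.Infinite → C' = C) ∧
      ∀ u : (Fin d → ℤ) → ℝ,
        {x ∈ C.supp | ∑ᶠ y ∈ (openGraph ω).neighborSet x, (u y - u x) ≠ 0}.Finite →
        (∀ ε : ℝ, 0 < ε → ∃ R : ℝ, ∀ x ∈ C.supp, R ≤ ‖x‖ → |u x| < ε) →
        ¬ 0 < liminf (fun N : ℕ =>
          ({e ∈ (openGraph ω).edgeSet |
              (∀ x ∈ e, x ∈ C.supp ∧ ‖x‖ ≤ N) ∧ ∃ x ∈ e, ∃ y ∈ e, u y - u x ≠ 0}.ncard : ℝ≥0∞) /
            ({x : Fin d → ℤ | ‖x‖ ≤ N}.ncard : ℝ≥0∞)) atTop →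
        {x ∈ C.supp | u x ≠ 0}.Finite := by
  classical
  obtain ⟨p0, h1, h2⟩ := theta_pos hp
  obtain ⟨c, hc, hPI⟩ := PIprob_of_RH (by omega) (RH_of_theta hd h1 h2)
  have hp0 : 0 < (p : ℝ) := lt_of_le_of_lt p0.2.1 h1
  have hprob : IsProbabilityMeasure (perc d p) := by unfold perc; infer_instance
  filter_upwards [(measurePreserving_opn (bern (d := d) p)).quasiMeasurePreserving.ae
    (main_of_PIprob hd hp0 hc hPI)] with ω hω
  obtain ⟨⟨o, ho⟩, huq, hmain⟩ := hω
  set O := opn XX ω with hO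
  have hsupp : ((openGraph ω).connectedComponentMk o).supp = Cl O := by
    rw [supp_mk]
    exact Set.ext fun y => ⟨fun hy => mem_Cl_of_comp ho hy, fun hy => huq o ho y hy⟩
  refine ⟨(openGraph ω).connectedComponentMk o, by rw [supp_mk]; exact ho, ?_, ?_⟩
  · intro C' hC'
    induction C' using SimpleGraph.ConnectedComponent.ind with
    | _ y =>
      rw [supp_mk] at hC'
      exact SimpleGraph.ConnectedComponent.sound (open_reach.2 (huq y hC' o ho))
  intro u hu1 hu2 hu3
  rw [hsupp] at hu1 hu2 hu3 ⊢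
  by_contra hinf
  apply hu3
  obtain ⟨R0, hR0⟩ := exists_box hu1
  have hH : HarmOff (GC O) R0 u := by
    intro y hy
    by_cases hc : y ∈ Cl O
    · by_contra hne
      refine hy (hR0 ⟨hc, ?_⟩)
      have : (openGraph ω).neighborSet y = (nbO O y : Set (V d)) := by
        ext z; simp [mem_nbO, open_adj, hO]
      rw [this, finsum_mem_coe_finset]
      have e1 : ∀ i, (y, i) ∈ GC O ↔ (y, i) ∈ O := fun i => ⟨fun h => h.1, fun h => ⟨h, hc⟩⟩
      have e2 : ∀ i, (y - ee i, i) ∈ GC O ↔ (y - ee i, i) ∈ O := fun i => ⟨fun h => h.1, fun h =>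
        ⟨h, mem_Cl_of_comp hc (comp_adj (mem_comp_self _ _) ⟨i, Or.inr ⟨by simp, h⟩⟩)⟩⟩
      rw [lapG_congr_edges e1 e2, lapG_eq_lap] at hne
      exact hne
    · exact lapG_of_not_mem (wf_GC O).sub _ hc
  have hD : Dec (Cl O) u := by
    intro ε hε
    obtain ⟨R, hR⟩ := hu2 ε hε
    refine ⟨⌈R⌉₊, fun y hy hy' => (hR y hy ?_).le⟩
    exact (Nat.le_ceil R).trans (not_le.1 fun h => hy' (norm_le_iff.1 h)).le
  obtain ⟨ε, hε, hev⟩ := hmain R0 u hH hD hinf
  refine (ENNReal.ofReal_pos.2 hε).trans_le (le_liminf_of_le (by isBoundedDefault) ?_)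
  filter_upwards [hev] with N hN
  set S := {e ∈ (openGraph ω).edgeSet |
    (∀ x ∈ e, x ∈ Cl O ∧ ‖x‖ ≤ N) ∧ ∃ x ∈ e, ∃ y ∈ e, u y - u x ≠ 0} with hS
  have hSfin : S.Finite := by
    refine (Finset.finite_toSet (box (0 : V d) N).sym2).subset fun e he => ?_
    exact Finset.mem_coe.2 (Finset.mem_sym2_iff.2 fun x hx => norm_le_iff.1 (he.2.1 x hx).2)
  have hTS : (act (GC O) u N).card ≤ S.ncard := by
    rw [← Set.ncard_coe_finset]
    refine Set.ncard_le_ncard_of_injOn (fun a => s(a.1, a.1 + ee a.2)) ?_ toEdge_inj.injOn hSfin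
    intro a ha
    obtain ⟨hb, a1, a2, a3⟩ := Finset.mem_filter.1 (Finset.mem_coe.1 ha)
    have hadj : adj O a.1 (a.1 + ee a.2) := ⟨a.2, Or.inl ⟨rfl, a1.1⟩⟩
    refine ⟨open_adj.2 hadj, fun z hz => ?_, a.1, by simp, a.1 + ee a.2, by simp, a3⟩
    rcases Sym2.mem_iff.1 hz with rfl | rfl
    · exact ⟨a1.2, norm_le_iff.2 (mem_boxE'.1 hb)⟩
    · exact ⟨mem_Cl_of_comp a1.2 (comp_adj (mem_comp_self _ _) hadj), norm_le_iff.2 a2⟩
  rw [ball_eq, Set.ncard_coe_finset]
  have hpos : (0 : ℝ) < (box (0 : V d) N).card := by rw [card_box_vol]; exact vol_pos d N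
  have hreal : ε ≤ (S.ncard : ℝ) / (box (0 : V d) N).card := by
    rw [le_div_iff₀ hpos, card_box_vol]
    exact hN.trans (by exact_mod_cast hTS)
  refine (ENNReal.ofReal_le_ofReal hreal).trans_eq ?_
  rw [ENNReal.ofReal_div_of_pos hpos, ENNReal.ofReal_natCast, ENNReal.ofReal_natCast]

end Pool.Agent.Results.MP_b4265e_pr.PositiveDensity
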